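import Pool.Agent.Lib.H5.Rain.Split

/-!
# Rainbow induced paths in layered graphs

Layer `t` is a complete graph with `2 t + K` vertices and consecutive layers are joined according
to a splitting matrix. In every proper colouring one can choose two vertices in each layer, one
layer after another, which form a rainbow induced path.
-/

namespace H5Rain

open Finset

theorem card_avoid {α : Type*} (A : Finset α) (f : α → ℕ) (hf : Set.InjOn f A) (U : Finset ℕ) :
    A.card ≤ (A.filter (fun z => f z ∉ U)).card + U.card := by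
  have h1 := card_filter_add_card_filter_not (s := A) (fun z => f z ∉ U)
  have h2 : (A.filter (fun z => ¬ f z ∉ U)).card ≤ U.card := by
    apply card_le_card_of_injOn f
    · intro z hz
      rw [mem_coe, mem_filter, not_not] at hz
      exact hz.2
    · intro a ha b hb hab
      rw [mem_coe, mem_filter] at ha hb
      exact hf ha.1 hb.1 hab
  omega

variable {M : ℕ}

/-- the choices made in the first `T` layers, and the candidates in layer `T` -/
structure State (R : Fin M → Fin M → Bool) (col : ℕ → Fin M → ℕ) (s : ℕ → ℕ) (b T : ℕ)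
    (v : ℕ → Fin M) (X Y : Finset (Fin M)) : Prop where
  hin : ∀ j < 2 * T, (v j : ℕ) < s (j / 2)
  rain : ∀ i < 2 * T, ∀ j < 2 * T, i ≠ j → col (i / 2) (v i) ≠ col (j / 2) (v j)
  pat : ∀ t, t + 1 < T → R (v (2 * t + 1)) (v (2 * t + 2)) = true ∧
    R (v (2 * t)) (v (2 * t + 2)) = false ∧ R (v (2 * t)) (v (2 * t + 3)) = false ∧
    R (v (2 * t + 1)) (v (2 * t + 3)) = false
  hX : ∀ z ∈ X, (z : ℕ) < s T ∧ (∀ j < 2 * T, col T z ≠ col (j / 2) (v j)) ∧
    ∀ t, t + 1 = T → R (v (2 * t + 1)) z = true ∧ R (v (2 * t)) z = false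
  hY : ∀ z ∈ Y, (z : ℕ) < s T ∧ (∀ j < 2 * T, col T z ≠ col (j / 2) (v j)) ∧
    ∀ t, t + 1 = T → R (v (2 * t + 1)) z = false ∧ R (v (2 * t)) z = false
  disj : Disjoint X Y
  cX : b ≤ X.card
  cY : b ≤ Y.card

theorem card_lt_filter {n : ℕ} (h : n ≤ M) :
    ((univ : Finset (Fin M)).filter (fun z : Fin M => (z : ℕ) < n)).card = n := by
  rw [Fin.card_filter_val_lt]
  exact min_eq_right h

theorem step {R : Fin M → Fin M → Bool} {col : ℕ → Fin M → ℕ} {s : ℕ → ℕ} {b h T : ℕ}
    (hs : ∀ t, s t = 2 * t + 20 * (20 * h)) (hbh : b + 2 ≤ h)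
    (hR1 : Splits R (20 * (20 * h)) b (20 * h)) (hR2 : Splits R (20 * h) b h)
    (hcol : ∀ t, ∀ x y : Fin M, (x : ℕ) < s t → (y : ℕ) < s t → col t x = col t y → x = y)
    (hM : s (T + 1) ≤ M) {v : ℕ → Fin M} {X Y : Finset (Fin M)}
    (st : State R col s b T v X Y) : ∃ v' X' Y', State R col s b (T + 1) v' X' Y' := by
  classical
  -- free vertices in the next layer
  obtain ⟨F, hF⟩ : ∃ F : Finset (Fin M), F = ((univ : Finset (Fin M)).filter
    (fun z : Fin M => (z : ℕ) < s (T + 1))).filter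
      (fun z => col (T + 1) z ∉ (range (2 * T)).image (fun j => col (j / 2) (v j))) := ⟨_, rfl⟩
  have hFm : ∀ z ∈ F, (z : ℕ) < s (T + 1) ∧ ∀ j < 2 * T, col (T + 1) z ≠ col (j / 2) (v j) := by
    intro z hz
    rw [hF, mem_filter, mem_filter] at hz
    refine ⟨hz.1.2, fun j hj he => hz.2 ?_⟩
    rw [mem_image]
    exact ⟨j, mem_range.2 hj, he.symm⟩
  have hFc : 20 * (20 * h) ≤ F.card := by
    have h1 := card_avoid ((univ : Finset (Fin M)).filter (fun z : Fin M => (z : ℕ) < s (T + 1)))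
      (col (T + 1)) (by
        intro a ha c hc hac
        rw [mem_coe, mem_filter] at ha hc
        exact hcol (T + 1) a c ha.2 hc.2 hac)
      ((range (2 * T)).image (fun j => col (j / 2) (v j)))
    rw [card_lt_filter hM, ← hF] at h1
    have h2 : ((range (2 * T)).image (fun j => col (j / 2) (v j))).card ≤ 2 * T := by
      refine card_image_le.trans ?_
      rw [card_range]
    rw [hs (T + 1)] at h1
    omega
  obtain ⟨F1, hF1, hF1c⟩ := exists_subset_card_eq hFc
  obtain ⟨X1, hX1, hX1c⟩ := exists_subset_card_eq st.cX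
  obtain ⟨Y1, hY1, hY1c⟩ := exists_subset_card_eq st.cY
  obtain ⟨x, hx, -, hx0⟩ := hR1 F1 X1 hF1c hX1c
  obtain ⟨F2, hF2, hF2c⟩ := exists_subset_card_eq hx0
  obtain ⟨y, hy, hy1, hy0⟩ := hR2 F2 Y1 hF2c hY1c
  have hxX := hX1 hx
  have hyY := hY1 hy
  have hxy : x ≠ y := by
    rintro rfl
    exact disjoint_left.1 st.disj hxX hyY
  have hF2m : ∀ z ∈ F2, R x z = false ∧ (z : ℕ) < s (T + 1) ∧
      ∀ j < 2 * T, col (T + 1) z ≠ col (j / 2) (v j) := by
    intro z hz
    have h1 := hF2 hz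
    rw [mem_filter] at h1
    exact ⟨h1.2, hFm z (hF1 h1.1)⟩
  have hcard : ∀ A ⊆ F2, h ≤ A.card →
      b ≤ (A.filter (fun z => col (T + 1) z ∉ ({col T x, col T y} : Finset ℕ))).card := by
    intro A hA hAc
    have h1 := card_avoid A (col (T + 1)) (by
      intro a ha c hc hac
      exact hcol (T + 1) a c (hF2m a (hA ha)).2.1 (hF2m c (hA hc)).2.1 hac)
      ({col T x, col T y} : Finset ℕ)
    have h2 : ({col T x, col T y} : Finset ℕ).card ≤ 2 := card_le_two
    omega
  obtain ⟨v', hv'⟩ : ∃ v' : ℕ → Fin M, v' = fun j => if j = 2 * T then x else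
    if j = 2 * T + 1 then y else v j := ⟨_, rfl⟩
  have v'x : v' (2 * T) = x := by rw [hv']; simp
  have v'y : v' (2 * T + 1) = y := by rw [hv']; simp
  have v'o : ∀ j < 2 * T, v' j = v j := by
    intro j hj
    rw [hv']
    simp only
    rw [if_neg (by omega), if_neg (by omega)]
  have hcase : ∀ j < 2 * (T + 1), j < 2 * T ∨ j = 2 * T ∨ j = 2 * T + 1 := by
    intro j hj; omega
  have d0 : 2 * T / 2 = T := by omega
  have d1 : (2 * T + 1) / 2 = T := by omega
  have hXx := st.hX x hxX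
  have hYy := st.hY y hyY
  have hcxy : col T x ≠ col T y := fun he => hxy (hcol T x y hXx.1 hYy.1 he)
  have hnew : ∀ A ⊆ F2, ∀ z ∈ A.filter (fun z => col (T + 1) z ∉ ({col T x, col T y} : Finset ℕ)),
      (z : ℕ) < s (T + 1) ∧ (∀ j < 2 * (T + 1), col (T + 1) z ≠ col (j / 2) (v' j)) := by
    intro A hA z hz
    rw [mem_filter, mem_insert, mem_singleton, not_or] at hz
    have h1 := hF2m z (hA hz.1)
    refine ⟨h1.2.1, fun j hj => ?_⟩
    rcases hcase j hj with h2 | rfl | rfl
    · rw [v'o j h2]; exact h1.2.2 j h2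
    · rw [v'x, d0]; exact hz.2.1
    · rw [v'y, d1]; exact hz.2.2
  refine ⟨v', (F2.filter (fun z => R y z = true)).filter
      (fun z => col (T + 1) z ∉ ({col T x, col T y} : Finset ℕ)),
    (F2.filter (fun z => R y z = false)).filter
      (fun z => col (T + 1) z ∉ ({col T x, col T y} : Finset ℕ)), ?_⟩
  constructor
  · intro j hj
    rcases hcase j hj with h2 | rfl | rfl
    · rw [v'o j h2]; exact st.hin j h2
    · rw [v'x, d0]; exact hXx.1
    · rw [v'y, d1]; exact hYy.1
  · intro i hi j hj hij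
    rcases hcase i hi with h2 | rfl | rfl <;> rcases hcase j hj with h3 | rfl | rfl
    · rw [v'o i h2, v'o j h3]; exact st.rain i h2 j h3 hij
    · rw [v'o i h2, v'x, d0]; exact (hXx.2.1 i h2).symm
    · rw [v'o i h2, v'y, d1]; exact (hYy.2.1 i h2).symm
    · rw [v'o j h3, v'x, d0]; exact hXx.2.1 j h3
    · exact absurd rfl hij
    · rw [v'x, v'y, d0, d1]; exact hcxy
    · rw [v'o j h3, v'y, d1]; exact hYy.2.1 j h3
    · rw [v'x, v'y, d0, d1]; exact hcxy.symm
    · exact absurd rfl hij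
  · intro t ht
    rcases Nat.lt_or_ge (t + 1) T with h2 | h2
    · rw [v'o _ (by omega), v'o _ (by omega), v'o _ (by omega), v'o _ (by omega)]
      exact st.pat t h2
    · have h3 : t + 1 = T := by omega
      have e2 : 2 * t + 2 = 2 * T := by omega
      have e3 : 2 * t + 3 = 2 * T + 1 := by omega
      rw [e2, e3, v'x, v'y, v'o _ (by omega), v'o _ (by omega)]
      exact ⟨(hXx.2.2 t h3).1, (hXx.2.2 t h3).2, (hYy.2.2 t h3).2, (hYy.2.2 t h3).1⟩
  · intro z hz
    have h1 := hnew _ (filter_subset _ _) z hz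
    refine ⟨h1.1, h1.2, fun t ht => ?_⟩
    have h3 : t = T := by omega
    subst h3
    rw [v'x, v'y]
    rw [mem_filter, mem_filter] at hz
    exact ⟨hz.1.2, (hF2m z hz.1.1).1⟩
  · intro z hz
    have h1 := hnew _ (filter_subset _ _) z hz
    refine ⟨h1.1, h1.2, fun t ht => ?_⟩
    have h3 : t = T := by omega
    subst h3
    rw [v'x, v'y]
    rw [mem_filter, mem_filter] at hz
    exact ⟨hz.1.2, (hF2m z hz.1.1).1⟩
  · rw [disjoint_left]
    intro z hz hz'
    rw [mem_filter, mem_filter] at hz hz'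
    rw [hz.1.2] at hz'
    exact absurd hz'.1.2 (by simp)
  · exact hcard _ (filter_subset _ _) hy1
  · exact hcard _ (filter_subset _ _) hy0

theorem states {R : Fin M → Fin M → Bool} {col : ℕ → Fin M → ℕ} {s : ℕ → ℕ} {b h m : ℕ}
    (hs : ∀ t, s t = 2 * t + 20 * (20 * h)) (hbh : b + 2 ≤ h)
    (hR1 : Splits R (20 * (20 * h)) b (20 * h)) (hR2 : Splits R (20 * h) b h)
    (hcol : ∀ t, ∀ x y : Fin M, (x : ℕ) < s t → (y : ℕ) < s t → col t x = col t y → x = y)
    (hM : s m ≤ M) : ∀ T ≤ m, ∃ v X Y, State R col s b T v X Y := by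
  intro T
  induction T with
  | zero =>
    intro _
    have h0 : 20 * (20 * h) ≤ M := by
      rw [hs] at hM
      omega
    have hpos : 0 < M := by omega
    refine ⟨fun _ => ⟨0, hpos⟩, univ.filter (fun z : Fin M => (z : ℕ) < b),
      univ.filter (fun z : Fin M => (z : ℕ) < 2 * b) \ univ.filter (fun z : Fin M => (z : ℕ) < b), ?_⟩
    constructor
    · intro j hj; omega
    · intro j hj; omega
    · intro j hj; omega
    · intro z hz
      rw [mem_filter] at hz
      refine ⟨by rw [hs]; omega, by intro j hj; omega, by intro t ht; omega⟩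
    · intro z hz
      rw [mem_sdiff, mem_filter, mem_filter] at hz
      refine ⟨by rw [hs]; omega, by intro j hj; omega, by intro t ht; omega⟩
    · exact disjoint_sdiff
    · rw [card_lt_filter (by omega)]
    · rw [card_sdiff_of_subset, card_lt_filter (by omega), card_lt_filter (by omega)]
      · omega
      · intro z hz
        rw [mem_filter] at hz ⊢
        exact ⟨mem_univ _, by omega⟩
  | succ T ih =>
    intro hT
    obtain ⟨v, X, Y, st⟩ := ih (by omega)
    refine step hs hbh hR1 hR2 hcol ?_ st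
    refine le_trans ?_ hM
    rw [hs, hs]
    omega

/-- the layered graph -/
def layered (R : Fin M → Fin M → Bool) (m : ℕ) : SimpleGraph (Fin m × Fin M) where
  Adj p q := (p.1 = q.1 ∧ p.2 ≠ q.2) ∨ ((p.1 : ℕ) + 1 = q.1 ∧ R p.2 q.2 = true) ∨
    ((q.1 : ℕ) + 1 = p.1 ∧ R q.2 p.2 = true)
  symm := ⟨fun p q h => by
    rcases h with h | h | h
    · exact Or.inl ⟨h.1.symm, h.2.symm⟩
    · exact Or.inr (Or.inr h)
    · exact Or.inr (Or.inl h)⟩
  loopless := ⟨fun p h => by
    rcases h with h | h | h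
    · exact h.2 rfl
    · have := h.1
      omega
    · have := h.1
      omega⟩

/-- its induced subgraph with `s t` vertices in layer `t` -/
def layered' (R : Fin M → Fin M → Bool) (m : ℕ) (s : ℕ → ℕ) :
    SimpleGraph {p : Fin m × Fin M // (p.2 : ℕ) < s p.1} :=
  (layered R m).comap Subtype.val

theorem card_layered' {m : ℕ} {s : ℕ → ℕ} (hs : ∀ t < m, s t ≤ M) :
    Fintype.card {p : Fin m × Fin M // (p.2 : ℕ) < s p.1} = ∑ t ∈ range m, s t := by
  rw [Fintype.card_subtype]
  have h1 : (univ : Finset (Fin m × Fin M)).filter (fun p => (p.2 : ℕ) < s p.1) =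
      (univ : Finset (Fin m)).biUnion (fun t => ((univ : Finset (Fin M)).filter
        (fun z : Fin M => (z : ℕ) < s t)).image (fun z => (t, z))) := by
    ext ⟨t, z⟩
    simp only [mem_filter, mem_univ, true_and, mem_biUnion, mem_image, Prod.mk.injEq]
    constructor
    · intro h
      exact ⟨t, z, h, rfl, rfl⟩
    · rintro ⟨t', z', h, rfl, rfl⟩
      exact h
  rw [h1, card_biUnion]
  · rw [sum_range]
    refine sum_congr rfl (fun t _ => ?_)
    rw [card_image_of_injective _ (fun a c h => (Prod.mk.inj h).2), card_lt_filter (hs t t.isLt)]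
  · intro t _ t' _ htt
    rw [Function.onFun, disjoint_left]
    intro p hp hp'
    rw [mem_image] at hp hp'
    obtain ⟨a, -, rfl⟩ := hp
    obtain ⟨c, -, hc⟩ := hp'
    exact htt (Prod.mk.inj hc).1.symm

/-- the rainbow path -/
theorem exists_path {R : Fin M → Fin M → Bool} {s : ℕ → ℕ} {b h m : ℕ}
    (hs : ∀ t, s t = 2 * t + 20 * (20 * h)) (hbh : b + 2 ≤ h)
    (hR1 : Splits R (20 * (20 * h)) b (20 * h)) (hR2 : Splits R (20 * h) b h)
    (hM : s m ≤ M) (c : (layered' R m s).Coloring ℕ) :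
    ∃ f : SimpleGraph.pathGraph (2 * m) ↪g layered' R m s,
      Function.Injective fun w => c (f w) := by
  classical
  obtain ⟨col, hcoldef⟩ : ∃ col : ℕ → Fin M → ℕ, col = fun (t : ℕ) (a : Fin M) =>
    if ht : t < m then (if ha : (a : ℕ) < s t then c ⟨(⟨t, ht⟩, a), ha⟩ else 0) else (a : ℕ) :=
    ⟨_, rfl⟩
  have hcol1 : ∀ (t : ℕ) (ht : t < m) (a : Fin M) (ha : (a : ℕ) < s t),
      col t a = c ⟨(⟨t, ht⟩, a), ha⟩ := by
    intro t ht a ha
    rw [hcoldef]
    simp only
    rw [dif_pos ht, dif_pos ha]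
  have hcol : ∀ t, ∀ x y : Fin M, (x : ℕ) < s t → (y : ℕ) < s t → col t x = col t y →
      x = y := by
    intro t x y hx hy he
    by_cases ht : t < m
    · rw [hcol1 t ht x hx, hcol1 t ht y hy] at he
      by_contra hne
      exact c.valid (v := ⟨(⟨t, ht⟩, x), hx⟩) (w := ⟨(⟨t, ht⟩, y), hy⟩) (Or.inl ⟨rfl, hne⟩) he
    · rw [hcoldef] at he
      simp only at he
      rw [dif_neg ht, dif_neg ht] at he
      exact Fin.ext he
  obtain ⟨v, X, Y, st⟩ := states hs hbh hR1 hR2 hcol hM m le_rfl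
  have hlt : ∀ j : Fin (2 * m), (j : ℕ) / 2 < m := by
    intro j
    have := j.isLt
    omega
  obtain ⟨f, hf⟩ : ∃ f : Fin (2 * m) → {p : Fin m × Fin M // (p.2 : ℕ) < s p.1},
    f = fun j => ⟨(⟨j / 2, hlt j⟩, v j), st.hin j j.isLt⟩ := ⟨_, rfl⟩
  have hcf : ∀ j : Fin (2 * m), c (f j) = col (j / 2) (v j) := by
    intro j
    rw [hcol1 _ (hlt j) _ (st.hin j j.isLt), hf]
  have hinj : Function.Injective fun w => c (f w) := by
    intro i j hij
    simp only at hij
    rw [hcf, hcf] at hij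
    by_contra hne
    exact st.rain i i.isLt j j.isLt (fun h => hne (Fin.ext h)) hij
  have hvne : ∀ i < 2 * m, ∀ j < 2 * m, i ≠ j → i / 2 = j / 2 → v i ≠ v j := by
    intro i hi j hj hij hd he
    apply st.rain i hi j hj hij
    rw [hd, he]
  have hadj : ∀ i j : Fin (2 * m), i < j → ((layered' R m s).Adj (f i) (f j) ↔
      (i : ℕ) + 1 = j) := by
    intro i j hij
    have hi := i.isLt
    have hj := j.isLt
    have hij' : (i : ℕ) < j := hij
    rw [hf]
    change ((⟨(i : ℕ) / 2, hlt i⟩ : Fin m) = ⟨(j : ℕ) / 2, hlt j⟩ ∧ v i ≠ v j) ∨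
      ((i : ℕ) / 2 + 1 = (j : ℕ) / 2 ∧ R (v i) (v j) = true) ∨
      ((j : ℕ) / 2 + 1 = (i : ℕ) / 2 ∧ R (v j) (v i) = true) ↔ _
    constructor
    · rintro (h1 | h1 | h1)
      · have := (Fin.mk.injEq _ _ _ _).mp h1.1
        omega
      · obtain ⟨h1, h2⟩ := h1
        by_contra hne
        obtain ⟨t, ht⟩ : ∃ t, (i : ℕ) = 2 * t ∨ (i : ℕ) = 2 * t + 1 := ⟨(i : ℕ) / 2, by omega⟩
        have hp := st.pat t (by omega)
        rcases ht with ht | ht
        · have hj2 : (j : ℕ) = 2 * t + 2 ∨ (j : ℕ) = 2 * t + 3 := by omega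
          rcases hj2 with hj2 | hj2
          · rw [ht, hj2, hp.2.1] at h2
            exact absurd h2 (by simp)
          · rw [ht, hj2, hp.2.2.1] at h2
            exact absurd h2 (by simp)
        · have hj2 : (j : ℕ) = 2 * t + 3 := by omega
          rw [ht, hj2, hp.2.2.2] at h2
          exact absurd h2 (by simp)
      · omega
    · intro h1
      by_cases hd : (i : ℕ) / 2 = (j : ℕ) / 2
      · left
        exact ⟨by rw [Fin.mk.injEq]; exact hd, hvne i hi j hj (by omega) hd⟩
      · right; left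
        obtain ⟨t, ht⟩ : ∃ t, (i : ℕ) = 2 * t + 1 := ⟨(i : ℕ) / 2, by omega⟩
        have hj2 : (j : ℕ) = 2 * t + 2 := by omega
        have hp := st.pat t (by omega)
        rw [ht, hj2]
        exact ⟨by omega, hp.1⟩
  refine ⟨⟨⟨f, fun i j h => hinj (by simp only; rw [h])⟩, ?_⟩, hinj⟩
  intro i j
  change (layered' R m s).Adj (f i) (f j) ↔ _
  rw [SimpleGraph.pathGraph_adj]
  rcases lt_trichotomy i j with h | h | h
  · rw [hadj i j h]
    have : (i : ℕ) < j := h
    constructor
    · intro h; exact Or.inl h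
    · rintro (h | h)
      · exact h
      · omega
  · subst h
    constructor
    · intro h
      exact absurd h ((layered' R m s).loopless.irrefl _)
    · rintro (h | h) <;> omega
  · rw [SimpleGraph.adj_comm, hadj j i h]
    have : (j : ℕ) < i := h
    constructor
    · intro h; exact Or.inr h
    · rintro (h | h)
      · omega
      · exact h

end H5Rain
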