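import Mathlib

/-!
# The greedy colouring by maximum independent sets
-/

namespace H5Rain

open Finset

variable {V : Type*} [DecidableEq V]

/-- every subset has an independent subset of at least half its size -/
def Half (G : SimpleGraph V) (W : Finset V) : Prop :=
  ∀ W' ⊆ W, ∃ J ⊆ W', (∀ u ∈ J, ∀ v ∈ J, ¬ G.Adj u v) ∧ W'.card ≤ 2 * J.card

/-- the lower bound -/
def low (n : ℕ) : ℕ := ∑ j ∈ range n, (j + 2) / 2

theorem low_succ (n : ℕ) : low (n + 1) = low n + (n + 2) / 2 := by
  rw [low, sum_range_succ]; rfl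

theorem four_low (n : ℕ) : 4 * low n = n ^ 2 + 2 * n + n % 2 := by
  induction n with
  | zero => simp [low]
  | succ n ih =>
    rw [low_succ, mul_add, ih]
    have h2 : (n + 1) ^ 2 = n ^ 2 + 2 * n + 1 := by ring
    rw [h2]
    omega

theorem greedy (G : SimpleGraph V) : ∀ (N : ℕ) (S : Finset V), S.card = N → ∃ c : V → ℕ,
    (∀ u ∈ S, ∀ v ∈ S, G.Adj u v → c u ≠ c v) ∧
      ∀ W ⊆ S, Set.InjOn c W → Half G W → low W.card ≤ N := by
  classical
  intro N
  induction N using Nat.strong_induction_on with
  | _ N ih =>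
    intro S hS
    rcases S.eq_empty_or_nonempty with rfl | ⟨a, ha⟩
    · refine ⟨fun _ => 0, by simp, ?_⟩
      intro W hW _ _
      rw [subset_empty] at hW
      subst hW
      simp [low]
    · obtain ⟨I, hI, hmax⟩ := exists_max_image
        (S.powerset.filter (fun I : Finset V => ∀ u ∈ I, ∀ v ∈ I, ¬ G.Adj u v)) card
        ⟨∅, by rw [mem_filter]; exact ⟨empty_mem_powerset _, by simp⟩⟩
      rw [mem_filter, mem_powerset] at hI
      have hmax' : ∀ J ⊆ S, (∀ u ∈ J, ∀ v ∈ J, ¬ G.Adj u v) → J.card ≤ I.card := by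
        intro J hJ hJ'
        exact hmax J (mem_filter.2 ⟨mem_powerset.2 hJ, hJ'⟩)
      have hIpos : 1 ≤ I.card := by
        have h1 := hmax' {a} (singleton_subset_iff.2 ha) (by
          intro u hu v hv
          rw [mem_singleton] at hu hv
          subst hu; subst hv
          exact G.loopless.irrefl _)
        rwa [card_singleton] at h1
      have hIN : I.card ≤ N := by rw [← hS]; exact card_le_card hI.1
      have hSI : (S \ I).card = N - I.card := by rw [card_sdiff_of_subset hI.1, hS]
      obtain ⟨c, hc1, hc2⟩ := ih (N - I.card) (by omega) (S \ I) hSI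
      refine ⟨fun v => if v ∈ I then 0 else c v + 1, ?_, ?_⟩
      · intro u hu v hv huv
        simp only
        by_cases h1 : u ∈ I <;> by_cases h2 : v ∈ I
        · exact absurd huv (hI.2 u h1 v h2)
        · rw [if_pos h1, if_neg h2]; omega
        · rw [if_neg h1, if_pos h2]; omega
        · rw [if_neg h1, if_neg h2]
          have := hc1 u (mem_sdiff.2 ⟨hu, h1⟩) v (mem_sdiff.2 ⟨hv, h2⟩) huv
          omega
      · intro W hW hinj hhalf
        have h1 : (W ∩ I).card ≤ 1 := by
          rw [card_le_one]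
          intro x hx y hy
          rw [mem_inter] at hx hy
          apply hinj hx.1 hy.1
          simp only
          rw [if_pos hx.2, if_pos hy.2]
        have h2 : (W \ I).card + (W ∩ I).card = W.card := card_sdiff_add_card_inter W I
        have h3 : low (W \ I).card ≤ N - I.card := by
          apply hc2 (W \ I) (sdiff_subset_sdiff hW le_rfl)
          · intro x hx y hy hxy
            rw [mem_coe, mem_sdiff] at hx hy
            apply hinj hx.1 hy.1
            simp only
            rw [if_neg hx.2, if_neg hy.2, hxy]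
          · intro W' hW'
            exact hhalf W' (hW'.trans sdiff_subset)
        obtain ⟨J, hJ1, hJ2, hJ3⟩ := hhalf W (Subset.refl _)
        have h4 := hmax' J (hJ1.trans hW) hJ2
        rcases Nat.eq_zero_or_pos (W ∩ I).card with h0 | h0
        · rw [h0, add_zero] at h2
          rw [← h2]
          omega
        · have h5 : (W \ I).card + 1 = W.card := by omega
          rw [← h5, low_succ]
          omega

theorem half_path {n : ℕ} {G : SimpleGraph V} (f : SimpleGraph.pathGraph n ↪g G) :
    Half G (univ.map f.toEmbedding) := by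
  classical
  intro W' hW'
  have hind : ∀ r : ℕ, ∀ u ∈ W'.filter (fun v => ∃ i : Fin n, f i = v ∧ (i : ℕ) % 2 = r),
      ∀ v ∈ W'.filter (fun v => ∃ i : Fin n, f i = v ∧ (i : ℕ) % 2 = r), ¬ G.Adj u v := by
    intro r u hu v hv hadj
    rw [mem_filter] at hu hv
    obtain ⟨-, i, rfl, hi⟩ := hu
    obtain ⟨-, j, rfl, hj⟩ := hv
    rw [SimpleGraph.Embedding.map_adj_iff, SimpleGraph.pathGraph_adj] at hadj
    omega
  have hcov : W' ⊆ W'.filter (fun v => ∃ i : Fin n, f i = v ∧ (i : ℕ) % 2 = 0) ∪
      W'.filter (fun v => ∃ i : Fin n, f i = v ∧ (i : ℕ) % 2 = 1) := by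
    intro v hv
    have h1 := hW' hv
    rw [mem_map] at h1
    obtain ⟨i, -, hi⟩ := h1
    rw [mem_union, mem_filter, mem_filter]
    rcases Nat.mod_two_eq_zero_or_one (i : ℕ) with h2 | h2
    · exact Or.inl ⟨hv, i, hi, h2⟩
    · exact Or.inr ⟨hv, i, hi, h2⟩
  have h1 := (card_le_card hcov).trans (card_union_le _ _)
  rcases le_total (W'.filter (fun v => ∃ i : Fin n, f i = v ∧ (i : ℕ) % 2 = 0)).card
    (W'.filter (fun v => ∃ i : Fin n, f i = v ∧ (i : ℕ) % 2 = 1)).card with h2 | h2
  · exact ⟨_, filter_subset _ _, hind 1, by omega⟩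
  · exact ⟨_, filter_subset _ _, hind 0, by omega⟩

/-- a graph with fewer than `low n` vertices has a proper colouring without rainbow induced path
on `n` vertices -/
theorem low_le [Fintype V] {n : ℕ} {G : SimpleGraph V}
    (h : ∀ c : G.Coloring ℕ, ∃ f : SimpleGraph.pathGraph n ↪g G,
      Function.Injective fun w => c (f w)) : low n ≤ Fintype.card V := by
  obtain ⟨c, hc1, hc2⟩ := greedy G (Fintype.card V) univ card_univ
  obtain ⟨f, hf⟩ := h (SimpleGraph.Coloring.mk c (fun {u v} huv =>
    hc1 u (mem_univ _) v (mem_univ _) huv))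
  have h1 := hc2 (univ.map f.toEmbedding) (subset_univ _) (by
    intro x hx y hy hxy
    rw [mem_coe, mem_map] at hx hy
    obtain ⟨i, -, rfl⟩ := hx
    obtain ⟨j, -, rfl⟩ := hy
    have : i = j := hf hxy
    rw [this]) (half_path f)
  rw [card_map, card_univ, Fintype.card_fin] at h1
  exact h1

end H5Rain
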