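import Mathlib

/-!
# Splitting matrices

A Boolean matrix with `M` rows and columns such that for every set `F` of `k` columns every set of
`b` rows contains one which has at least `h` ones and at least `h` zeros in `F`.
-/

namespace H5Rain

open Finset

/-- for every set `F` of `k` columns, every set of `b` rows contains a row with at least `h` ones
and at least `h` zeros in `F` -/
def Splits {M : ℕ} (R : Fin M → Fin M → Bool) (k b h : ℕ) : Prop :=
  ∀ F X : Finset (Fin M), F.card = k → X.card = b →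
    ∃ x ∈ X, h ≤ (F.filter (fun z => R x z = true)).card ∧
      h ≤ (F.filter (fun z => R x z = false)).card

theorem filter_add {M : ℕ} (F : Finset (Fin M)) (r : Fin M → Bool) :
    (F.filter (fun z => r z = true)).card + (F.filter (fun z => r z = false)).card = F.card := by
  rw [← card_filter_add_card_filter_not (s := F) (fun z => r z = true)]
  congr 2
  ext z
  simp

/-- the rows with few values `v` in `F` -/
def fewRows {M : ℕ} (F : Finset (Fin M)) (h : ℕ) (v : Bool) : Finset (Fin M → Bool) :=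
  univ.filter (fun r => (F.filter (fun z => r z = v)).card < h)

theorem weight_sum {M : ℕ} (F : Finset (Fin M)) (v : Bool) :
    ∑ r : Fin M → Bool, ∏ z, (if z ∈ F ∧ r z ≠ v then 8 else 1) =
      9 ^ F.card * 2 ^ (M - F.card) := by
  have h1 := (Finset.prod_univ_sum (fun _ : Fin M => (univ : Finset Bool))
    (fun z b => if z ∈ F ∧ b ≠ v then (8 : ℕ) else 1)).symm
  rw [Fintype.piFinset_univ] at h1
  rw [h1]
  have h2 : ∀ z ∈ (univ : Finset (Fin M)),
      (∑ b : Bool, if z ∈ F ∧ b ≠ v then (8 : ℕ) else 1) = if z ∈ F then 9 else 2 := by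
    intro z _
    by_cases hz : z ∈ F <;> cases v <;> simp [hz]
  rw [prod_congr rfl h2, prod_ite, prod_const, prod_const]
  congr 2
  · congr 1
    ext z; simp
  · rw [← compl_filter, card_compl, Fintype.card_fin]
    congr 2
    ext z; simp

theorem card_fewRows {M : ℕ} (F : Finset (Fin M)) (h : ℕ) (v : Bool) :
    (fewRows F h v).card * 8 ^ (F.card - h) ≤ 9 ^ F.card * 2 ^ (M - F.card) := by
  rw [← weight_sum F v, ← smul_eq_mul, ← sum_const]
  refine le_trans ?_ (sum_le_sum_of_subset (subset_univ (fewRows F h v)))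
  apply sum_le_sum
  intro r hr
  rw [fewRows, mem_filter] at hr
  rw [prod_ite, prod_const_one, mul_one, prod_const]
  apply Nat.pow_le_pow_right (by norm_num)
  have h1 : (univ.filter (fun z => z ∈ F ∧ r z ≠ v)) = F.filter (fun z => ¬ r z = v) := by
    ext z; simp
  rw [h1]
  have h2 := card_filter_add_card_filter_not (s := F) (fun z => r z = v)
  omega

/-- the rows which do not split `F` -/
def badRows {M : ℕ} (F : Finset (Fin M)) (h : ℕ) : Finset (Fin M → Bool) :=
  fewRows F h true ∪ fewRows F h false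

theorem card_badRows {M : ℕ} (F : Finset (Fin M)) (h : ℕ) :
    (badRows F h).card * 8 ^ (F.card - h) ≤ 2 * (9 ^ F.card * 2 ^ (M - F.card)) := by
  have h1 := card_fewRows F h true
  have h2 := card_fewRows F h false
  have h3 := card_union_le (fewRows F h true) (fewRows F h false)
  calc (badRows F h).card * 8 ^ (F.card - h)
      ≤ ((fewRows F h true).card + (fewRows F h false).card) * 8 ^ (F.card - h) :=
        Nat.mul_le_mul_right _ h3
    _ ≤ _ := by rw [add_mul]; omega

theorem not_mem_badRows {M : ℕ} {F : Finset (Fin M)} {h : ℕ} {r : Fin M → Bool}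
    (hr : r ∉ badRows F h) : h ≤ (F.filter (fun z => r z = true)).card ∧
      h ≤ (F.filter (fun z => r z = false)).card := by
  rw [badRows, mem_union, fewRows, fewRows, mem_filter, mem_filter, not_or] at hr
  constructor
  · by_contra hc
    exact hr.1 ⟨mem_univ _, by omega⟩
  · by_contra hc
    exact hr.2 ⟨mem_univ _, by omega⟩

/-- the matrices all of whose rows in `X` are bad for `F` -/
def badMat {M : ℕ} (F X : Finset (Fin M)) (h : ℕ) : Finset (Fin M → Fin M → Bool) :=
  Fintype.piFinset (fun x => if x ∈ X then badRows F h else univ)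

theorem card_badMat {M : ℕ} (F X : Finset (Fin M)) (h : ℕ) :
    (badMat F X h).card = (badRows F h).card ^ X.card * (2 ^ M) ^ (M - X.card) := by
  rw [badMat, Fintype.card_piFinset]
  have h1 : ∀ x ∈ (univ : Finset (Fin M)), (if x ∈ X then badRows F h else univ).card =
      if x ∈ X then (badRows F h).card else 2 ^ M := by
    intro x _
    split_ifs
    · rfl
    · rw [card_univ]; simp
  rw [prod_congr rfl h1, prod_ite, prod_const, prod_const]
  congr 2
  · congr 1
    ext z; simp
  · rw [← compl_filter, card_compl, Fintype.card_fin]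
    congr 2
    ext z; simp

/-- the matrices which do not split -/
noncomputable def nonSplit (M k b h : ℕ) : Finset (Fin M → Fin M → Bool) :=
  (powersetCard k univ ×ˢ powersetCard b univ).biUnion (fun p => badMat p.1 p.2 h)

theorem splits_of_notMem {M k b h : ℕ} {R : Fin M → Fin M → Bool} (hR : R ∉ nonSplit M k b h) :
    Splits R k b h := by
  intro F X hF hX
  by_contra hcon
  push Not at hcon
  apply hR
  rw [nonSplit, mem_biUnion]
  refine ⟨(F, X), ?_, ?_⟩
  · rw [mem_product, mem_powersetCard, mem_powersetCard]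
    exact ⟨⟨subset_univ _, hF⟩, ⟨subset_univ _, hX⟩⟩
  · rw [badMat, Fintype.mem_piFinset]
    intro x
    split_ifs with hx
    · by_contra hb
      have h1 := not_mem_badRows hb
      have h2 := hcon x hx h1.1
      exact absurd h1.2 (not_le.2 h2)
    · exact mem_univ _

theorem card_nonSplit {M k b h l : ℕ} (hM : M ≤ 2 ^ l) (hk : k ≤ M) (hb : b ≤ M) :
    (nonSplit M k b h).card * (8 ^ ((k - h) * b) * 2 ^ (k * b)) ≤
      2 ^ (l * (k + b) + b) * 9 ^ (k * b) * 2 ^ (M * M) := by
  have h1 : (nonSplit M k b h).card ≤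
      ∑ p ∈ powersetCard k (univ : Finset (Fin M)) ×ˢ powersetCard b (univ : Finset (Fin M)),
        (badMat p.1 p.2 h).card := card_biUnion_le
  have h2 : ∀ p ∈ powersetCard k (univ : Finset (Fin M)) ×ˢ powersetCard b (univ : Finset (Fin M)),
      (badMat p.1 p.2 h).card * (8 ^ ((k - h) * b) * 2 ^ (k * b)) ≤
        2 ^ b * 9 ^ (k * b) * 2 ^ (M * M) := by
    intro p hp
    rw [mem_product, mem_powersetCard, mem_powersetCard] at hp
    obtain ⟨⟨-, hF⟩, ⟨-, hX⟩⟩ := hp
    rw [card_badMat, hX]
    have h3 := card_badRows p.1 h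
    rw [hF] at h3
    have h4 := Nat.pow_le_pow_left h3 b
    calc (badRows p.1 h).card ^ b * (2 ^ M) ^ (M - b) * (8 ^ ((k - h) * b) * 2 ^ (k * b))
        = ((badRows p.1 h).card * 8 ^ (k - h)) ^ b * ((2 ^ M) ^ (M - b) * 2 ^ (k * b)) := by
          rw [mul_pow, ← pow_mul 8]; ring
      _ ≤ (2 * (9 ^ k * 2 ^ (M - k))) ^ b * ((2 ^ M) ^ (M - b) * 2 ^ (k * b)) :=
          Nat.mul_le_mul_right _ h4
      _ = 2 ^ b * 9 ^ (k * b) * (2 ^ ((M - k) * b) * (2 ^ (M * (M - b)) * 2 ^ (k * b))) := by
          rw [mul_pow, mul_pow, ← pow_mul 9, ← pow_mul 2 (M - k), ← pow_mul 2 M]; ring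
      _ = 2 ^ b * 9 ^ (k * b) * 2 ^ (M * M) := by
          rw [← pow_add, ← pow_add]
          congr 2
          obtain ⟨c, rfl⟩ := Nat.exists_eq_add_of_le hk
          obtain ⟨d, hd⟩ := Nat.exists_eq_add_of_le hb
          rw [Nat.add_sub_cancel_left]
          rw [hd, Nat.add_sub_cancel_left]
          have h5 : b + d = k + c := hd.symm
          have h6 : (b + d) * (b + d) = (k + c) * (b + d) := by rw [h5]
          nlinarith
  have h3 : (powersetCard k (univ : Finset (Fin M)) ×ˢ powersetCard b (univ : Finset (Fin M))).card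
      ≤ 2 ^ (l * (k + b)) := by
    rw [card_product, card_powersetCard, card_powersetCard, card_univ, Fintype.card_fin, mul_add,
      pow_add, pow_mul, pow_mul]
    apply Nat.mul_le_mul
    · exact (Nat.choose_le_pow M k).trans (Nat.pow_le_pow_left hM k)
    · exact (Nat.choose_le_pow M b).trans (Nat.pow_le_pow_left hM b)
  calc (nonSplit M k b h).card * (8 ^ ((k - h) * b) * 2 ^ (k * b))
      ≤ (∑ p ∈ powersetCard k (univ : Finset (Fin M)) ×ˢ powersetCard b (univ : Finset (Fin M)),
        (badMat p.1 p.2 h).card) * (8 ^ ((k - h) * b) * 2 ^ (k * b)) := Nat.mul_le_mul_right _ h1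
    _ = ∑ p ∈ powersetCard k (univ : Finset (Fin M)) ×ˢ powersetCard b (univ : Finset (Fin M)),
        (badMat p.1 p.2 h).card * (8 ^ ((k - h) * b) * 2 ^ (k * b)) := by rw [sum_mul]
    _ ≤ ∑ p ∈ powersetCard k (univ : Finset (Fin M)) ×ˢ powersetCard b (univ : Finset (Fin M)),
        2 ^ b * 9 ^ (k * b) * 2 ^ (M * M) := sum_le_sum h2
    _ = (powersetCard k (univ : Finset (Fin M)) ×ˢ powersetCard b (univ : Finset (Fin M))).card *
        (2 ^ b * 9 ^ (k * b) * 2 ^ (M * M)) := by rw [sum_const, smul_eq_mul]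
    _ ≤ 2 ^ (l * (k + b)) * (2 ^ b * 9 ^ (k * b) * 2 ^ (M * M)) := Nat.mul_le_mul_right _ h3
    _ = _ := by rw [pow_add 2 (l * (k + b)) b]; ring

theorem two_mul_card_nonSplit {M h l : ℕ} (hl : 1 ≤ l) (hM : M ≤ 2 ^ l) (hh : 4 * l + 2 ≤ h) :
    2 * (nonSplit M (20 * h) (4 * l) h).card < 2 ^ (M * M) := by
  by_cases hk : 20 * h ≤ M
  · have hb : 4 * l ≤ M := by omega
    have h1 := card_nonSplit (h := h) hM hk hb
    have h2 : (8 : ℕ) ^ ((20 * h - h) * (4 * l)) * 2 ^ (20 * h * (4 * l)) =
        2 ^ (77 * h * (4 * l)) := by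
      rw [show (8 : ℕ) = 2 ^ 3 by norm_num, ← pow_mul, ← pow_add]
      congr 1
      have : 20 * h - h = 19 * h := by omega
      rw [this]; ring
    have h3 : (9 : ℕ) ^ (20 * h * (4 * l)) ≤ 2 ^ (64 * h * (4 * l)) := by
      rw [show 20 * h * (4 * l) = 5 * (4 * h * (4 * l)) by ring,
        show 64 * h * (4 * l) = 16 * (4 * h * (4 * l)) by ring]
      generalize 4 * h * (4 * l) = e
      rw [pow_mul, pow_mul]
      exact Nat.pow_le_pow_left (show 9 ^ 5 ≤ 2 ^ 16 by norm_num) e
    rw [h2] at h1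
    have h4 : (nonSplit M (20 * h) (4 * l) h).card * 2 ^ (77 * h * (4 * l)) ≤
        2 ^ (l * (20 * h + 4 * l) + 4 * l + 64 * h * (4 * l)) * 2 ^ (M * M) := by
      refine h1.trans ?_
      rw [pow_add 2 _ (64 * h * (4 * l))]
      exact Nat.mul_le_mul_right _ (Nat.mul_le_mul_left _ h3)
    have h5 : l * (20 * h + 4 * l) + 4 * l + 64 * h * (4 * l) + 1 < 77 * h * (4 * l) := by
      nlinarith
    have h6 : 2 ^ (l * (20 * h + 4 * l) + 4 * l + 64 * h * (4 * l) + 1) * 2 ^ (M * M) <
        2 ^ (77 * h * (4 * l)) * 2 ^ (M * M) :=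
      Nat.mul_lt_mul_of_pos_right (Nat.pow_lt_pow_right (by norm_num) h5) (by positivity)
    have h7 : 2 * (nonSplit M (20 * h) (4 * l) h).card * 2 ^ (77 * h * (4 * l)) <
        2 ^ (M * M) * 2 ^ (77 * h * (4 * l)) := by
      calc 2 * (nonSplit M (20 * h) (4 * l) h).card * 2 ^ (77 * h * (4 * l))
          ≤ 2 * (2 ^ (l * (20 * h + 4 * l) + 4 * l + 64 * h * (4 * l)) * 2 ^ (M * M)) := by
            rw [mul_assoc]; exact Nat.mul_le_mul_left _ h4
        _ = 2 ^ (l * (20 * h + 4 * l) + 4 * l + 64 * h * (4 * l) + 1) * 2 ^ (M * M) := by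
            rw [pow_succ]; ring
        _ < _ := by rw [mul_comm (2 ^ (M * M))]; exact h6
    exact Nat.lt_of_mul_lt_mul_right h7
  · have h1 : nonSplit M (20 * h) (4 * l) h = ∅ := by
      rw [nonSplit]
      have : powersetCard (20 * h) (univ : Finset (Fin M)) = ∅ := by
        rw [powersetCard_eq_empty, card_univ, Fintype.card_fin]
        omega
      rw [this, empty_product, biUnion_empty]
    rw [h1]
    simp

/-- a matrix with two splitting properties -/
theorem exists_splits {M l : ℕ} (hl : 1 ≤ l) (hM : M ≤ 2 ^ l) {h h' : ℕ} (hh : 4 * l + 2 ≤ h)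
    (hh' : 4 * l + 2 ≤ h') : ∃ R : Fin M → Fin M → Bool,
      Splits R (20 * h) (4 * l) h ∧ Splits R (20 * h') (4 * l) h' := by
  have h1 := two_mul_card_nonSplit hl hM hh
  have h2 := two_mul_card_nonSplit hl hM hh'
  have h3 : (nonSplit M (20 * h) (4 * l) h ∪ nonSplit M (20 * h') (4 * l) h').card <
      (univ : Finset (Fin M → Fin M → Bool)).card := by
    rw [card_univ]
    have h4 : Fintype.card (Fin M → Fin M → Bool) = 2 ^ (M * M) := by
      simp [← pow_mul]
    rw [h4]
    have := card_union_le (nonSplit M (20 * h) (4 * l) h) (nonSplit M (20 * h') (4 * l) h')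
    omega
  obtain ⟨R, -, hR⟩ := exists_mem_notMem_of_card_lt_card h3
  rw [mem_union, not_or] at hR
  exact ⟨R, splits_of_notMem hR.1, splits_of_notMem hR.2⟩

end H5Rain
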